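import Pool.Agent.H246KN.GEN

/-!
# Asymptotics of the number of unknotted polygons in terms of a doubling ratio

For a class of knot types closed under connected sums (in particular for the unknot, or for all polygons)
let `q_j` be the number of polygons of length `2j` in `ℤ³` of the class, up to translation, and `g` the
growth rate, so `q_j^(1/(2j)) → g`.  Then `q_j ~ A (2j)^(α-3) g^(2j)` for some `A > 0`, `α` if and only if
`q_{2j} / q_j^2 ~ B j^(-(α-3))` for some `B > 0`, `α`: the asymptotic form is a property of the doubling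
ratios alone, without the growth rate.  The same on the logarithmic scale.

Proof: `log (q_n / g^(2n)) = - ∑_j 2^(-j-1) log (q_{2m} / q_m^2)`, `m = 2^j n`.
-/

set_option autoImplicit false

namespace Pool.Agent.Results.MP_aea6d5_co.UnknotDoubling

open Filter Topology KN

/-! ### the recursion -/

theorem tele (f : ℕ → ℝ) (n k : ℕ) : f n = f (2 ^ k * n) / 2 ^ k +
    ∑ j ∈ Finset.range k, (2 * f (2 ^ j * n) - f (2 * (2 ^ j * n))) / 2 ^ (j + 1) := by
  induction k with
  | zero => simp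
  | succ k ih =>
    rw [Finset.sum_range_succ, ih]
    have e : 2 * (2 ^ k * n) = 2 ^ (k + 1) * n := by rw [pow_succ]; ring
    rw [e]
    have h2 : (2 : ℝ) ^ k ≠ 0 := by positivity
    field_simp
    ring

theorem geo (x y : ℝ) (k : ℕ) : ∑ j ∈ Finset.range k, (x + j * y) / 2 ^ (j + 1) =
    x * (1 - 1 / 2 ^ k) + y * (1 - (k + 1) / 2 ^ k) := by
  induction k with
  | zero => simp
  | succ k ih =>
    rw [Finset.sum_range_succ, ih]
    have h2 : (2 : ℝ) ^ k ≠ 0 := by positivity
    rw [pow_succ]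
    push_cast
    field_simp
    ring

theorem geo_lim (x y : ℝ) : Tendsto (fun k : ℕ => x * (1 - 1 / 2 ^ k) + y * (1 - ((k : ℝ) + 1) / 2 ^ k))
    atTop (𝓝 (x + y)) := by
  have h1 : Tendsto (fun k : ℕ => 1 / (2 : ℝ) ^ k) atTop (𝓝 0) := by
    have := tendsto_pow_atTop_nhds_zero_of_lt_one (r := (1 / 2 : ℝ)) (by norm_num) (by norm_num)
    refine this.congr (fun k => ?_)
    rw [one_div_pow]
  have h2 : Tendsto (fun k : ℕ => (k : ℝ) / (2 : ℝ) ^ k) atTop (𝓝 0) := by
    have := tendsto_self_mul_const_pow_of_lt_one (r := (1 / 2 : ℝ)) (by norm_num) (by norm_num)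
    refine this.congr (fun k => ?_)
    rw [one_div_pow]
    ring
  have h3 : Tendsto (fun k : ℕ => ((k : ℝ) + 1) / (2 : ℝ) ^ k) atTop (𝓝 0) := by
    have := h2.add h1
    rw [add_zero] at this
    refine this.congr (fun k => ?_)
    rw [← add_div]
  have h4 : Tendsto (fun k : ℕ => x * (1 - 1 / 2 ^ k) + y * (1 - ((k : ℝ) + 1) / 2 ^ k))
      atTop (𝓝 (x * (1 - 0) + y * (1 - 0))) :=
    ((tendsto_const_nhds.sub h1).const_mul x).add ((tendsto_const_nhds.sub h3).const_mul y)
  simpa using h4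

theorem sub_lim {f : ℕ → ℝ} (hf : Tendsto (fun n : ℕ => f n / n) atTop (𝓝 0)) {n : ℕ} (hn : 1 ≤ n) :
    Tendsto (fun k : ℕ => f (2 ^ k * n) / 2 ^ k) atTop (𝓝 0) := by
  have hn0 : (n : ℝ) ≠ 0 := by exact_mod_cast (by omega : n ≠ 0)
  have h1 : Tendsto (fun k : ℕ => 2 ^ k * n) atTop atTop := by
    apply tendsto_atTop_mono (f := fun k => k) _ tendsto_id
    intro k
    have h2 : k < 2 ^ k := Nat.lt_two_pow_self
    calc k ≤ 2 ^ k * 1 := by omega
      _ ≤ 2 ^ k * n := Nat.mul_le_mul_left _ hn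
  have h2 := (hf.comp h1).mul_const (n : ℝ)
  rw [zero_mul] at h2
  refine h2.congr (fun k => ?_)
  simp only [Function.comp]
  push_cast
  field_simp

/-! ### the principle -/

theorem key {e w : ℕ → ℝ} (he : Tendsto (fun n : ℕ => e n / n) atTop (𝓝 0)) {N : ℕ} {ε : ℝ}
    (hε : 0 ≤ ε) (hw : ∀ n : ℕ, N ≤ n → ∀ j : ℕ, w (2 ^ j * n) ≤ w n + j * w n)
    (h : ∀ n : ℕ, N ≤ n → 2 * e n - e (2 * n) ≤ ε * w n) {n : ℕ} (hn : N ≤ n) (hn1 : 1 ≤ n) :
    e n ≤ 2 * (ε * w n) := by
  have h1 : ∀ k : ℕ, e n ≤ e (2 ^ k * n) / 2 ^ k +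
      ε * (w n * (1 - 1 / 2 ^ k) + w n * (1 - ((k : ℝ) + 1) / 2 ^ k)) := by
    intro k
    rw [tele e n k, ← geo, Finset.mul_sum]
    apply add_le_add le_rfl
    apply Finset.sum_le_sum
    intro j _
    have h2 : N ≤ 2 ^ j * n := by
      have : 1 ≤ 2 ^ j := Nat.one_le_two_pow
      nlinarith
    have h3 := h (2 ^ j * n) h2
    have h4 := mul_le_mul_of_nonneg_left (hw n hn j) hε
    rw [mul_div_assoc']
    exact div_le_div_of_nonneg_right (h3.trans h4) (by positivity)
  have h2 := (sub_lim he hn1).add ((geo_lim (w n) (w n)).const_mul ε)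
  rw [zero_add] at h2
  have h3 := ge_of_tendsto' h2 h1
  linarith

theorem o_iff {u w : ℕ → ℝ} (hw0 : ∀ᶠ n : ℕ in atTop, 0 < w n) :
    Tendsto (fun n : ℕ => u n / w n) atTop (𝓝 0) ↔
      ∀ ε : ℝ, 0 < ε → ∀ᶠ n : ℕ in atTop, |u n| ≤ ε * w n := by
  rw [Metric.tendsto_nhds]
  constructor
  · intro h ε hε
    filter_upwards [h ε hε, hw0] with n h1 h2
    rw [Real.dist_eq, sub_zero, abs_div, abs_of_pos h2, div_lt_iff₀ h2] at h1
    exact h1.le
  · intro h ε hε
    filter_upwards [h (ε / 2) (by linarith), hw0] with n h1 h2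
    rw [Real.dist_eq, sub_zero, abs_div, abs_of_pos h2, div_lt_iff₀ h2]
    nlinarith

theorem princ {e w : ℕ → ℝ} (he : Tendsto (fun n : ℕ => e n / n) atTop (𝓝 0))
    (hw0 : ∀ᶠ n : ℕ in atTop, 0 < w n)
    (hw : ∀ᶠ n : ℕ in atTop, ∀ j : ℕ, w (2 ^ j * n) ≤ w n + j * w n) :
    Tendsto (fun n : ℕ => (2 * e n - e (2 * n)) / w n) atTop (𝓝 0) ↔
      Tendsto (fun n : ℕ => e n / w n) atTop (𝓝 0) := by
  rw [o_iff hw0, o_iff hw0]
  constructor
  · intro h ε hε
    obtain ⟨N, hN⟩ := eventually_atTop.1 ((h (ε / 2) (by linarith)).and hw)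
    filter_upwards [eventually_ge_atTop N, eventually_ge_atTop 1] with n hn hn1
    have he' : Tendsto (fun n : ℕ => -e n / n) atTop (𝓝 0) := by
      have := he.neg
      rw [neg_zero] at this
      refine this.congr (fun n => ?_)
      ring
    have h1 := key he (N := N) (ε := ε / 2) (by linarith) (fun n hn => (hN n hn).2)
      (fun n hn => (abs_le.1 (hN n hn).1).2) hn hn1
    have h2 := key (e := fun n => -e n) he' (N := N) (ε := ε / 2) (by linarith)
      (fun n hn => (hN n hn).2) (fun n hn => by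
        have := (abs_le.1 (hN n hn).1).1
        linarith) hn hn1
    rw [abs_le]
    constructor <;> linarith
  · intro h ε hε
    obtain ⟨N, hN⟩ := eventually_atTop.1 ((h (ε / 4) (by linarith)).and hw)
    filter_upwards [eventually_ge_atTop N, hw0] with n hn hn0
    have h1 := (hN n hn).1
    have h2 := (hN (2 * n) (by omega)).1
    have h3 := (hN n hn).2 1
    rw [pow_one, Nat.cast_one, one_mul] at h3
    rw [abs_le] at h1 h2 ⊢
    have h4 : ε / 4 * w (2 * n) ≤ ε / 4 * (w n + w n) :=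
      mul_le_mul_of_nonneg_left h3 (by linarith)
    have h5 : 0 < ε * w n := mul_pos hε hn0
    constructor <;> linarith [h1.1, h1.2, h2.1, h2.2]

/-! ### the gauges -/

theorem log_big : Tendsto (fun n : ℕ => Real.log n) atTop atTop :=
  Real.tendsto_log_atTop.comp tendsto_natCast_atTop_atTop

theorem log_lim (k : ℕ) : Tendsto (fun n : ℕ => Real.log n ^ k / n) atTop (𝓝 0) := by
  have h := (Real.tendsto_pow_log_div_mul_add_atTop 1 0 k one_ne_zero).comp
    tendsto_natCast_atTop_atTop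
  refine h.congr (fun n => ?_)
  simp only [Function.comp, one_mul, add_zero]

theorem log_iff {u : ℕ → ℝ} (hu : ∀ᶠ n : ℕ in atTop, 0 < u n) {A : ℝ} (hA : 0 < A) :
    Tendsto (fun n : ℕ => Real.log (u n) - Real.log A) atTop (𝓝 0) ↔ Tendsto u atTop (𝓝 A) := by
  rw [tendsto_sub_nhds_zero_iff]
  constructor
  · intro h
    have h1 := (Real.continuous_exp.tendsto _).comp h
    rw [Real.exp_log hA] at h1
    refine h1.congr' ?_
    filter_upwards [hu] with n h2
    simp only [Function.comp]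
    rw [Real.exp_log h2]
  · intro h
    exact (Real.continuousAt_log hA.ne').tendsto.comp h

/-! ### sequences -/

theorem dbl {q : ℕ → ℝ} {g : ℝ} (hg : 0 < g) {N : ℕ} (hq : ∀ n : ℕ, N ≤ n → 0 < q n) {n : ℕ}
    (hn : N ≤ n) : 0 < q n ∧ 0 < q (2 * n) ∧
    Real.log (q (2 * n) / q n ^ 2) =
      Real.log (q (2 * n) / g ^ (2 * (2 * n))) - 2 * Real.log (q n / g ^ (2 * n)) := by
  have h1 := hq n hn
  have h2 := hq (2 * n) (by omega)
  have h3 := pow_pos hg (2 * n)
  have h4 := pow_pos hg (2 * (2 * n))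
  refine ⟨h1, h2, ?_⟩
  rw [Real.log_div h2.ne' (by positivity), Real.log_div h2.ne' h4.ne', Real.log_div h1.ne' h3.ne',
    Real.log_pow, Real.log_pow, Real.log_pow]
  push_cast
  ring

theorem exact_asym {q : ℕ → ℝ} {g : ℝ} (hg : 0 < g) {N : ℕ} (hN : 2 ≤ N)
    (hq : ∀ n : ℕ, N ≤ n → 0 < q n)
    (hf : Tendsto (fun n : ℕ => Real.log (q n / g ^ (2 * n)) / n) atTop (𝓝 0))
    {A : ℝ} (hA : 0 < A) (t : ℝ) :
    Tendsto (fun n : ℕ => q n / g ^ (2 * n) * (n : ℝ) ^ t) atTop (𝓝 A) ↔
      Tendsto (fun n : ℕ => q (2 * n) / q n ^ 2 * (n : ℝ) ^ (-t)) atTop (𝓝 (2 ^ (-t) / A)) := by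
  have he : Tendsto (fun n : ℕ => (Real.log (q n / g ^ (2 * n)) + (t * Real.log n -
      Real.log A)) / n) atTop (𝓝 0) := by
    have h1 : Tendsto (fun n : ℕ => Real.log A / (n : ℝ)) atTop (𝓝 0) :=
      tendsto_const_nhds.div_atTop tendsto_natCast_atTop_atTop
    have h2 := log_lim 1
    simp only [pow_one] at h2
    have := hf.add ((h2.const_mul t).sub h1)
    rw [mul_zero, sub_zero, add_zero] at this
    refine this.congr (fun n => ?_)
    ring
  have hp := princ (w := fun _ => 1) he (Eventually.of_forall (fun _ => one_pos))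
    (Eventually.of_forall (fun n j => by
      have : (0 : ℝ) ≤ j := Nat.cast_nonneg j
      linarith))
  have hu1 : ∀ᶠ n : ℕ in atTop, 0 < q n / g ^ (2 * n) * (n : ℝ) ^ t := by
    filter_upwards [eventually_ge_atTop N] with n hn
    have hn0 : (0 : ℝ) < n := by exact_mod_cast (by omega : 0 < n)
    have h1 := (dbl hg hq hn).1
    have h2 := pow_pos hg (2 * n)
    positivity
  have hu2 : ∀ᶠ n : ℕ in atTop, 0 < q (2 * n) / q n ^ 2 * (n : ℝ) ^ (-t) := by
    filter_upwards [eventually_ge_atTop N] with n hn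
    have hn0 : (0 : ℝ) < n := by exact_mod_cast (by omega : 0 < n)
    have h1 := (dbl hg hq hn).1
    have h2 := (dbl hg hq hn).2.1
    positivity
  rw [← log_iff hu1 hA, ← log_iff hu2 (A := 2 ^ (-t) / A) (by positivity)]
  have a1 : Tendsto (fun n : ℕ => Real.log (q n / g ^ (2 * n) * (n : ℝ) ^ t) -
      Real.log A) atTop (𝓝 0) ↔ Tendsto (fun n : ℕ => (Real.log (q n / g ^ (2 * n)) +
      (t * Real.log n - Real.log A)) / 1) atTop (𝓝 0) := by
    apply tendsto_congr'
    filter_upwards [eventually_ge_atTop N] with n hn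
    have hn0 : (0 : ℝ) < n := by exact_mod_cast (by omega : 0 < n)
    have h1 := (dbl hg hq hn).1
    have h2 := pow_pos hg (2 * n)
    rw [Real.log_mul (by positivity) (by positivity), Real.log_rpow hn0]
    ring
  rw [a1, ← hp]
  have e1 : ∀ᶠ n : ℕ in atTop, (2 * (Real.log (q n / g ^ (2 * n)) + (t * Real.log n -
        Real.log A)) - (Real.log (q (2 * n) / g ^ (2 * (2 * n))) +
        (t * Real.log ((2 * n : ℕ) : ℝ) - Real.log A))) / 1 =
      -(Real.log (q (2 * n) / q n ^ 2 * (n : ℝ) ^ (-t)) - Real.log (2 ^ (-t) / A)) := by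
    filter_upwards [eventually_ge_atTop N] with n hn
    have hn0 : (0 : ℝ) < n := by exact_mod_cast (by omega : 0 < n)
    have h1 := (dbl hg hq hn).1
    have h2 := (dbl hg hq hn).2.1
    rw [Real.log_div (by positivity) hA.ne', Real.log_mul (by positivity) (by positivity),
      Real.log_rpow hn0, Real.log_rpow (by norm_num), (dbl hg hq hn).2.2]
    have e2 : Real.log ((2 * n : ℕ) : ℝ) = Real.log 2 + Real.log n := by
      push_cast
      rw [Real.log_mul (by norm_num) hn0.ne']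
    rw [e2]
    ring
  rw [tendsto_congr' e1]
  constructor
  · intro k
    have := k.neg
    rw [neg_zero] at this
    refine this.congr (fun n => ?_)
    ring
  · intro k
    have := k.neg
    rwa [neg_zero] at this

theorem scale {q : ℕ → ℝ} {g : ℝ} (hg : 0 < g) {N : ℕ} (hN : 2 ≤ N)
    (hq : ∀ n : ℕ, N ≤ n → 0 < q n)
    (hf : Tendsto (fun n : ℕ => Real.log (q n / g ^ (2 * n)) / n) atTop (𝓝 0)) (t : ℝ) :
    Tendsto (fun n : ℕ => Real.log (q n / g ^ (2 * n)) / Real.log n) atTop (𝓝 (-t)) ↔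
      Tendsto (fun n : ℕ => Real.log (q (2 * n) / q n ^ 2) / Real.log n) atTop (𝓝 t) := by
  have hw0 : ∀ᶠ n : ℕ in atTop, 0 < Real.log n := log_big.eventually_gt_atTop 0
  have hw : ∀ᶠ n : ℕ in atTop, ∀ j : ℕ, Real.log ((2 ^ j * n : ℕ) : ℝ) ≤
      Real.log n + j * Real.log n := by
    filter_upwards [eventually_ge_atTop 2] with n hn j
    have hn0 : (0 : ℝ) < n := by exact_mod_cast (by omega : 0 < n)
    have h3 : Real.log 2 ≤ Real.log n := Real.log_le_log (by norm_num) (by exact_mod_cast hn)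
    push_cast
    rw [Real.log_mul (by positivity) hn0.ne', Real.log_pow]
    have := mul_le_mul_of_nonneg_left h3 (Nat.cast_nonneg j : (0 : ℝ) ≤ j)
    linarith
  have he : Tendsto (fun n : ℕ => (Real.log (q n / g ^ (2 * n)) + t * Real.log n) / n) atTop
      (𝓝 0) := by
    have h2 := log_lim 1
    simp only [pow_one] at h2
    have := hf.add (h2.const_mul t)
    rw [mul_zero, add_zero] at this
    refine this.congr (fun n => ?_)
    ring
  have hp := princ he hw0 hw
  have hd : Tendsto (fun n : ℕ => t * (Real.log 2 / Real.log n)) atTop (𝓝 0) := by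
    have := (tendsto_const_nhds (x := Real.log 2)).div_atTop log_big |>.const_mul t
    rwa [mul_zero] at this
  have a1 : Tendsto (fun n : ℕ => (Real.log (q n / g ^ (2 * n)) + t * Real.log n) /
      Real.log n) atTop (𝓝 0) ↔
      Tendsto (fun n : ℕ => Real.log (q n / g ^ (2 * n)) / Real.log n) atTop (𝓝 (-t)) := by
    rw [← tendsto_sub_nhds_zero_iff (u := fun n : ℕ => Real.log (q n / g ^ (2 * n)) / Real.log n)]
    apply tendsto_congr'
    filter_upwards [hw0] with n h1
    field_simp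
    ring
  have key2 : ∀ᶠ n : ℕ in atTop, (2 * (Real.log (q n / g ^ (2 * n)) + t * Real.log n) -
      (Real.log (q (2 * n) / g ^ (2 * (2 * n))) + t * Real.log ((2 * n : ℕ) : ℝ))) /
      Real.log n = t - Real.log (q (2 * n) / q n ^ 2) / Real.log n -
        t * (Real.log 2 / Real.log n) := by
    filter_upwards [hw0, eventually_ge_atTop N] with n h1 hn
    have hn0 : (0 : ℝ) < n := by exact_mod_cast (by omega : 0 < n)
    have e2 : Real.log ((2 * n : ℕ) : ℝ) = Real.log 2 + Real.log n := by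
      push_cast
      rw [Real.log_mul (by norm_num) hn0.ne']
    rw [e2, (dbl hg hq hn).2.2]
    field_simp
    ring
  have a2 : Tendsto (fun n : ℕ => (2 * (Real.log (q n / g ^ (2 * n)) + t * Real.log n) -
      (Real.log (q (2 * n) / g ^ (2 * (2 * n))) + t * Real.log ((2 * n : ℕ) : ℝ))) /
      Real.log n) atTop (𝓝 0) ↔
      Tendsto (fun n : ℕ => Real.log (q (2 * n) / q n ^ 2) / Real.log n) atTop (𝓝 t) := by
    rw [tendsto_congr' key2]
    constructor
    · intro g
      have g1 := ((g.add hd).const_sub t)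
      rw [add_zero, sub_zero] at g1
      refine g1.congr (fun n => ?_)
      ring
    · intro g
      have g1 := (g.const_sub t).sub hd
      rw [sub_self, sub_zero] at g1
      exact g1
  rw [← a1, ← a2]
  exact hp.symm

/-- the asymptotic form of `q` in terms of its doubling ratios; `g` is the growth rate -/
def Doubling (q : ℕ → ℝ) (g : ℝ) : Prop :=
  ((∃ α A : ℝ, 0 < A ∧
      Tendsto (fun j : ℕ => q j / ((2 * j : ℝ) ^ (α - 3) * g ^ (2 * j))) atTop (𝓝 A)) ↔
    (∃ α B : ℝ, 0 < B ∧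
      Tendsto (fun j : ℕ => q (2 * j) / q j ^ 2 * (j : ℝ) ^ (α - 3)) atTop (𝓝 B))) ∧
  (∀ t A : ℝ, 0 < A →
    (Tendsto (fun j : ℕ => q j / g ^ (2 * j) * (j : ℝ) ^ t) atTop (𝓝 A) ↔
      Tendsto (fun j : ℕ => q (2 * j) / q j ^ 2 * (j : ℝ) ^ (-t)) atTop (𝓝 (2 ^ (-t) / A)))) ∧
  (∀ t : ℝ, Tendsto (fun j : ℕ => Real.log (q j / g ^ (2 * j)) / Real.log j) atTop (𝓝 (-t)) ↔
    Tendsto (fun j : ℕ => Real.log (q (2 * j) / q j ^ 2) / Real.log j) atTop (𝓝 t))

theorem doubling {q : ℕ → ℝ} {g : ℝ} (hg : 0 < g) (h0 : ∀ n : ℕ, 0 ≤ q n)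
    (hlim : Tendsto (fun j : ℕ => q j ^ (1 / (2 * j : ℝ))) atTop (𝓝 g)) : Doubling q g := by
  have hev : ∀ᶠ n : ℕ in atTop, 0 < q n := by
    filter_upwards [hlim.eventually (lt_mem_nhds hg), eventually_ge_atTop 1] with n h1 hn
    rcases (h0 n).eq_or_lt with h2 | h2
    · rw [← h2, Real.zero_rpow] at h1
      · exact absurd h1 (lt_irrefl _)
      · have : (0 : ℝ) < n := by exact_mod_cast hn
        positivity
    · exact h2
  obtain ⟨N0, hN0⟩ := eventually_atTop.1 hev
  have hN : 2 ≤ max N0 2 := le_max_right _ _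
  have hq : ∀ n : ℕ, max N0 2 ≤ n → 0 < q n := fun n hn => hN0 n ((le_max_left _ _).trans hn)
  have hf : Tendsto (fun n : ℕ => Real.log (q n / g ^ (2 * n)) / n) atTop (𝓝 0) := by
    have h1 : Tendsto (fun n : ℕ => 2 * (Real.log (q n ^ (1 / (2 * n : ℝ))) - Real.log g)) atTop
        (𝓝 (2 * (Real.log g - Real.log g))) :=
      (((Real.continuousAt_log hg.ne').tendsto.comp hlim).sub tendsto_const_nhds).const_mul 2
    rw [sub_self, mul_zero] at h1
    refine h1.congr' ?_
    filter_upwards [eventually_ge_atTop (max N0 2)] with n hn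
    have hn0 : (n : ℝ) ≠ 0 := by exact_mod_cast (by omega : n ≠ 0)
    have h2 := hq n hn
    rw [Real.log_rpow h2, Real.log_div h2.ne' (pow_pos hg _).ne', Real.log_pow]
    push_cast
    field_simp
  have he := fun (t A : ℝ) (hA : 0 < A) => exact_asym hg hN hq hf hA t
  have hconv : ∀ α A : ℝ, Tendsto (fun j : ℕ => q j / ((2 * j : ℝ) ^ (α - 3) * g ^ (2 * j))) atTop (𝓝 A) ↔
      Tendsto (fun j : ℕ => q j / g ^ (2 * j) * (j : ℝ) ^ (3 - α)) atTop (𝓝 (2 ^ (α - 3) * A)) := by
    intro α A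
    have h2 : (0 : ℝ) < 2 ^ (α - 3) := by positivity
    have e : ∀ᶠ j : ℕ in atTop, q j / g ^ (2 * j) * (j : ℝ) ^ (3 - α) =
        2 ^ (α - 3) * (q j / ((2 * j : ℝ) ^ (α - 3) * g ^ (2 * j))) := by
      filter_upwards [eventually_ge_atTop 1] with j hj
      have hj0 : (0 : ℝ) < j := by exact_mod_cast hj
      have h3 := pow_pos hg (2 * j)
      have h4 : (0 : ℝ) < (j : ℝ) ^ (α - 3) := by positivity
      rw [show (3 - α) = -(α - 3) by ring, Real.rpow_neg hj0.le,
        Real.mul_rpow (by norm_num) hj0.le]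
      field_simp
    rw [tendsto_congr' e]
    constructor
    · intro h
      exact h.const_mul _
    · intro h
      have h5 := h.const_mul (2 ^ (α - 3) : ℝ)⁻¹
      rw [inv_mul_cancel_left₀ h2.ne'] at h5
      refine h5.congr (fun j => ?_)
      rw [inv_mul_cancel_left₀ h2.ne']
  refine ⟨⟨?_, ?_⟩, he, scale hg hN hq hf⟩
  · rintro ⟨α, A, hA, h⟩
    rw [hconv] at h
    have h2 : (0 : ℝ) < 2 ^ (α - 3) * A := by positivity
    have h3 := (he (3 - α) _ h2).1 h
    rw [show -(3 - α) = α - 3 by ring] at h3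
    exact ⟨α, _, by positivity, h3⟩
  · rintro ⟨α, B, hB, h⟩
    refine ⟨α, 1 / B, by positivity, ?_⟩
    rw [hconv]
    have h2 : (0 : ℝ) < 2 ^ (α - 3) * (1 / B) := by positivity
    refine (he (3 - α) _ h2).2 ?_
    rw [show -(3 - α) = α - 3 by ring]
    have e : (2 : ℝ) ^ (α - 3) / (2 ^ (α - 3) * (1 / B)) = B := by
      have : (0 : ℝ) < 2 ^ (α - 3) := by positivity
      field_simp
    rw [e]
    exact h

/-- **Theorem.** For every class `Q` of knot types which is closed under connected sums and contains a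
polygon, in particular for the unknot, the asymptotic form of the number `pq Q (2j)` of polygons of length
`2j` in `ℤ³` (up to translation) of the class is equivalent to one for its doubling ratios. -/
theorem result :
    (∀ Q : List Dir → Prop, KClass Q → (∃ w, SAP w ∧ Q w) → CSum Q →
      Tendsto (fun j : ℕ => (pq Q (2 * j)) ^ (1 / (2 * j : ℝ))) atTop (𝓝 (gr Q)) ∧
      Doubling (fun j => pq Q (2 * j)) (gr Q)) ∧
    Tendsto (fun j : ℕ => (pq U (2 * j)) ^ (1 / (2 * j : ℝ))) atTop (𝓝 (gr U)) ∧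
    Doubling (fun j => pq U (2 * j)) (gr U) := by
  have main : ∀ Q : List Dir → Prop, KClass Q → (∃ w, SAP w ∧ Q w) → CSum Q →
      Tendsto (fun j : ℕ => (pq Q (2 * j)) ^ (1 / (2 * j : ℝ))) atTop (𝓝 (gr Q)) ∧
      Doubling (fun j => pq Q (2 * j)) (gr Q) := by
    intro Q hQ hne hc
    have h1 := (class_sum Q hQ hne hc).1
    have h2 : 0 < gr Q := by
      have := gr_bounds Q hQ hne
      linarith [this.1]
    exact ⟨h1, doubling h2 (fun n => by unfold pq; positivity) h1⟩
  have hU : KClass U := GEN.kt_class sq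
  have hne : ∃ w, SAP w ∧ U w := ⟨sqw, c_sq.2.1, Or.inl (Same.refl _)⟩
  exact ⟨main, main U hU hne GEN.u_csum⟩

end Pool.Agent.Results.MP_aea6d5_co.UnknotDoubling
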